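import Pool.Agent.H20.NLExt

namespace Pool.Agent.Results.MP_3eb9f6_co.Attained
open Pool.Agent.H20

theorem result (k D : ℕ) (hk : 5 ≤ k) (h3 : 3 ≤ D) (hD : D ≤ k - 2) :
    ∃ (V : Type) (_ : Fintype V) (G : SimpleGraph V) (_ : DecidableRel G.Adj),
      G.Connected ∧ chiNL G = k ∧ G.maxDegree = D ∧
      Fintype.card V = ∑ j ∈ Finset.Icc 1 D, k * (k - 1).choose j := by
  classical
  obtain ⟨m, rfl⟩ : ∃ m, k = m + 3 := ⟨k - 3, by omega⟩
  refine ⟨NLExt.W m D, inferInstance, NLExt.G m D, inferInstance, NLExt.conn m D h3,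
    NLExt.chi m D h3, ?_, by rw [NLExt.card_W, NLExt.card_Ty]⟩
  apply le_antisymm
  · exact SimpleGraph.maxDegree_le_of_forall_degree_le _ _ (NLExt.deg_le m D h3)
  · obtain ⟨u, hu⟩ := NLExt.deg_ge m D (by omega) (by omega)
    exact hu.trans (SimpleGraph.degree_le_maxDegree _ u)

end Pool.Agent.Results.MP_3eb9f6_co.Attained
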